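import Pool.Agent.Q143.BT.Deg
import Pool.Agent.Q143.UG.Ind2

/-!
# Semilinear groups acting on the tree
-/

set_option autoImplicit false
set_option linter.unusedSectionVars false
set_option linter.unusedVariables false
set_option linter.style.haveILetI false

namespace Pool.Agent.Q143.SL

open Pool.Agent.Q143.JN Pool.Agent.Q143.BT WithZero Pool.Agent.Y462.SS Pool.Agent.Q152.WP
  Pool.Agent.Q143.TR

section ring

variable {A Λ : Type} [CommRing A] [Group Λ] (τ : Λ →* RingAut A)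

theorem ri (l : Λ) (x : A) : τ l⁻¹ (τ l x) = x := by
  change (τ l⁻¹ * τ l) x = x
  rw [← map_mul, inv_mul_cancel, map_one]
  rfl

theorem ir (l : Λ) (x : A) : τ l (τ l⁻¹ x) = x := by
  change (τ l * τ l⁻¹) x = x
  rw [← map_mul, mul_inv_cancel, map_one]
  rfl

/-- the action on the entries of matrices -/
noncomputable def ph : Λ →* MulAut (M2 A) where
  toFun l :=
    { toFun := mp ((τ l : A ≃+* A) : A →+* A)
      invFun := mp ((τ l⁻¹ : A ≃+* A) : A →+* A)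
      left_inv := fun g => by
        apply Units.ext
        ext i j
        rw [mp_apply, mp_apply]
        exact ri τ l _
      right_inv := fun g => by
        apply Units.ext
        ext i j
        rw [mp_apply, mp_apply]
        exact ir τ l _
      map_mul' := fun g h => map_mul _ g h }
  map_one' := by
    ext g
    change τ 1 (g.1 _ _) = g.1 _ _
    rw [map_one]
    rfl
  map_mul' l l' := by
    ext g
    change τ (l * l') (g.1 _ _) = τ l (τ l' (g.1 _ _))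
    rw [map_mul]
    rfl

theorem ph_apply (l : Λ) (g : M2 A) (a b : Fin 2) : (ph τ l g).1 a b = τ l (g.1 a b) := rfl

end ring

section act

variable {F : Type} [Field F] {v : Valuation F Z0} {Λ : Type} [Group Λ]
  (σ : Λ →* RingAut F) (hv : ∀ l x, v (σ l x) = v x)

theorem nm_sig (hv : ∀ l x, v (σ l x) = v x) (l : Λ) (a : F) (r : Z0) (x : Fin 2 → F) :
    nm v a r (fun i => σ l⁻¹ (x i)) = nm v (σ l a) r x := by
  change max (v (σ l⁻¹ (x 0) - a * σ l⁻¹ (x 1))) (r * v (σ l⁻¹ (x 1))) =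
    max (v (x 0 - σ l a * x 1)) (r * v (x 1))
  rw [hv l⁻¹ (x 1), ← hv l (σ l⁻¹ (x 0) - a * σ l⁻¹ (x 1))]
  have h1 : σ l (σ l⁻¹ (x 0) - a * σ l⁻¹ (x 1)) = x 0 - σ l a * x 1 := by
    have h2 := map_sub ((σ l : F ≃+* F) : F →+* F) (σ l⁻¹ (x 0)) (a * σ l⁻¹ (x 1))
    have h3 := map_mul ((σ l : F ≃+* F) : F →+* F) a (σ l⁻¹ (x 1))
    change σ l (σ l⁻¹ (x 0) - a * σ l⁻¹ (x 1)) = σ l (σ l⁻¹ (x 0)) - σ l (a * σ l⁻¹ (x 1)) at h2
    change σ l (a * σ l⁻¹ (x 1)) = σ l a * σ l (σ l⁻¹ (x 1)) at h3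
    rw [h2, h3, ir, ir]
  rw [h1]

/-- the action of a field automorphism on the vertices -/
def lamA (l : Λ) (N : VV v) : VV v := ⟨fun x => N.1 (fun i => σ l⁻¹ (x i)), by
  obtain ⟨a, r, hr, hN⟩ := N.2
  refine ⟨σ l a, r, hr, ?_⟩
  funext x
  rw [hN]
  exact nm_sig σ hv l a r x⟩

theorem lam_mk (l : Λ) (a : F) (r : Z0) (hr : r ≠ 0) :
    lamA σ hv l (mkV v a r hr) = mkV v (σ l a) r hr :=
  Subtype.ext (funext fun x => nm_sig σ hv l a r x)

theorem lam_par (l : Λ) (N : VV v) : lamA σ hv l (par N) = par (lamA σ hv l N) := by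
  rw [← mkV_self N, par_mk, lam_mk, lam_mk, par_mk]

theorem lam_adj (l : Λ) (M N : VV v) (h : (TT v).Adj M N) :
    (TT v).Adj (lamA σ hv l M) (lamA σ hv l N) := by
  rcases h with h | h
  · left
    rw [← lam_par, h]
  · right
    rw [← lam_par, h]

theorem lam_one (N : VV v) : lamA σ hv 1 N = N := by
  apply Subtype.ext
  funext x
  change N.1 (fun i => σ (1 : Λ)⁻¹ (x i)) = N.1 x
  rw [inv_one, map_one]
  rfl

theorem lam_mul (l l' : Λ) (N : VV v) : lamA σ hv (l * l') N = lamA σ hv l (lamA σ hv l' N) := by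
  apply Subtype.ext
  funext x
  change N.1 (fun i => σ (l * l')⁻¹ (x i)) = N.1 (fun i => σ l'⁻¹ (σ l⁻¹ (x i)))
  rw [mul_inv_rev, map_mul]
  rfl

theorem sig_act (l : Λ) (g : M2 F) (x : Fin 2 → F) (i : Fin 2) :
    σ l⁻¹ (act2 (ph σ l g) x i) = act2 g (fun j => σ l⁻¹ (x j)) i := by
  rw [act2_apply, act2_apply, ph_apply, ph_apply]
  have h2 := map_add ((σ l⁻¹ : F ≃+* F) : F →+* F) (σ l (g.1 i 0) * x 0) (σ l (g.1 i 1) * x 1)
  have h3 := map_mul ((σ l⁻¹ : F ≃+* F) : F →+* F) (σ l (g.1 i 0)) (x 0)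
  have h4 := map_mul ((σ l⁻¹ : F ≃+* F) : F →+* F) (σ l (g.1 i 1)) (x 1)
  change σ l⁻¹ (σ l (g.1 i 0) * x 0 + σ l (g.1 i 1) * x 1) =
    σ l⁻¹ (σ l (g.1 i 0) * x 0) + σ l⁻¹ (σ l (g.1 i 1) * x 1) at h2
  change σ l⁻¹ (σ l (g.1 i 0) * x 0) = σ l⁻¹ (σ l (g.1 i 0)) * σ l⁻¹ (x 0) at h3
  change σ l⁻¹ (σ l (g.1 i 1) * x 1) = σ l⁻¹ (σ l (g.1 i 1)) * σ l⁻¹ (x 1) at h4
  rw [h2, h3, h4, ri, ri]

theorem sig_e (l : Λ) : (fun j => σ l⁻¹ ((![1, 0] : Fin 2 → F) j)) = ![1, 0] := by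
  funext j
  fin_cases j
  · exact map_one ((σ l⁻¹ : F ≃+* F) : F →+* F)
  · exact map_zero ((σ l⁻¹ : F ≃+* F) : F →+* F)

theorem lam_smul (l : Λ) (g : M2 F) (N : VV v) :
    lamA σ hv l (g • N) = ph σ l g • lamA σ hv l N := by
  apply Subtype.ext
  funext x
  rw [BT.smul_apply]
  change (g • N).1 (fun i => σ l⁻¹ (x i)) =
    N.1 (fun i => σ l⁻¹ (act2 (ph σ l g)⁻¹ x i)) /
      N.1 (fun i => σ l⁻¹ (act2 (ph σ l g)⁻¹ ![1, 0] i))
  rw [BT.smul_apply, ← map_inv]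
  have h1 : ∀ y : Fin 2 → F, (fun i => σ l⁻¹ (act2 (ph σ l g⁻¹) y i)) =
      act2 g⁻¹ (fun j => σ l⁻¹ (y j)) := fun y => funext fun i => sig_act σ l g⁻¹ y i
  rw [h1, h1, sig_e]

end act

section semi

variable {A F : Type} [CommRing A] [Field F] {ψ : A →+* F} {v : Valuation F Z0} {Λ : Type}
  [Group Λ] (τ : Λ →* RingAut A) (σ : Λ →* RingAut F) (hv : ∀ l x, v (σ l x) = v x)
  (hτσ : ∀ l a, ψ (τ l a) = σ l (ψ a))

/-- the semilinear group -/
abbrev SG : Type := M2 A ⋊[ph τ] Λ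

theorem mp_ph (hτσ : ∀ l a, ψ (τ l a) = σ l (ψ a)) (l : Λ) (g : M2 A) :
    mp ψ (ph τ l g) = ph σ l (mp ψ g) := by
  apply Units.ext
  ext i j
  rw [mp_apply, ph_apply, ph_apply, mp_apply, hτσ]

/-- the action of the semilinear group on the tree -/
@[instance_reducible]
noncomputable def actS : MulAction (SG τ) (VV v) where
  smul g N := mp ψ g.left • lamA σ hv g.right N
  one_smul N := by
    change mp ψ 1 • lamA σ hv 1 N = N
    rw [map_one, one_smul, lam_one]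
  mul_smul g h N := by
    change mp ψ (g.left * ph τ g.right h.left) • lamA σ hv (g.right * h.right) N =
      mp ψ g.left • lamA σ hv g.right (mp ψ h.left • lamA σ hv h.right N)
    rw [lam_smul, map_mul, mul_smul, mp_ph τ σ hτσ, lam_mul]

end semi

end Pool.Agent.Q143.SL
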