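import Pool.Agent.Q143.SL.Main

/-!
# Semilinear groups over domains with a degree function, polynomial rings
-/

set_option autoImplicit false
set_option linter.unusedSectionVars false
set_option linter.unusedVariables false
set_option linter.style.haveILetI false

namespace Pool.Agent.Q143.SL

open Pool.Agent.Q143.JN Pool.Agent.Q143.BT WithZero Pool.Agent.Y462.SS Pool.Agent.Q152.WP
  Pool.Agent.Q143.TR Pool.Agent.Q143.UG

section

variable {A Λ : Type} [CommRing A] [IsDomain A] [Group Λ] (τ : Λ →* RingAut A)

/-- the extension of an automorphism to the field of fractions -/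
noncomputable def frE (e : A ≃+* A) : FractionRing A ≃+* FractionRing A :=
  IsFractionRing.ringEquivOfRingEquiv e

theorem frE_map (e : A ≃+* A) (a : A) : frE e (algebraMap A (FractionRing A) a) =
    algebraMap A (FractionRing A) (e a) :=
  IsFractionRing.ringEquivOfRingEquiv_algebraMap e a

theorem fr_ext {f g : FractionRing A ≃+* FractionRing A}
    (h : ∀ a, f (algebraMap A (FractionRing A) a) = g (algebraMap A (FractionRing A) a)) :
    f = g := by
  apply RingEquiv.ext
  intro x
  obtain ⟨a, b, hb, rfl⟩ := IsFractionRing.div_surjective (A := A) x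
  rw [map_div₀, map_div₀, h, h]

/-- the extension to the field of fractions -/
noncomputable def fr : Λ →* RingAut (FractionRing A) where
  toFun l := frE (τ l)
  map_one' := by
    refine fr_ext (fun a => ?_)
    rw [frE_map, map_one]
    rfl
  map_mul' l l' := by
    refine fr_ext (fun a => ?_)
    have h1 : ((frE (τ l) : RingAut (FractionRing A)) * frE (τ l'))
        (algebraMap A (FractionRing A) a) =
        frE (τ l) (frE (τ l') (algebraMap A (FractionRing A) a)) := rfl
    rw [h1, frE_map, frE_map, frE_map]
    have h2 : (τ (l * l')) a = τ l (τ l' a) := by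
      rw [map_mul]
      rfl
    rw [h2]

theorem fr_map (l : Λ) (a : A) : algebraMap A (FractionRing A) (τ l a) =
    fr τ l (algebraMap A (FractionRing A) a) :=
  (frE_map (τ l) a).symm

/-- the theorem for a degree function -/
theorem deg_semi {C : ∀ (G : Type) [Group G], Prop} (hC : Closed C) (hE : ExtClosed C)
    (hS : ∀ (G : Type) [Group G], Group.IsSolvable G → C G) {deg : A → ℕ} (h : DegFun deg)
    (hdeg : ∀ l a, deg (τ l a) = deg a) (m : Ideal A) (hm : ∀ a ∈ m, a ≠ 0 → 0 < deg a)
    (hst : ∀ l, ∀ a ∈ m, τ l a ∈ m) (hΛ : C Λ) (Γ : Subgroup (SG τ)) {Q : Type} [Group Q]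
    (f : Γ →* Q) (hQ : C Q) (hf : ∀ γ : Γ, f γ = 1 → γ.1.right = 1 ∧ Cg m γ.1.left) : C Γ := by
  let F := FractionRing A
  let v : Valuation F Z0 := (dv h).extendToLocalization (dv_supp h) F
  have hv : ∀ a : A, v (algebraMap A F a) = dv h a :=
    fun a => (dv h).extendToLocalization_apply_map_apply (dv_supp h) F a
  have hd : ∀ l a, dv h (τ l a) = dv h a := by
    intro l a
    by_cases ha : a = 0
    · rw [ha]
      have h1 : τ l (0 : A) = 0 := map_zero ((τ l : A ≃+* A) : A →+* A)
      rw [h1]
    · have h1 : τ l a ≠ 0 := by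
        intro h2
        apply ha
        have h3 := ri τ l a
        rw [h2] at h3
        rw [← h3]
        exact map_zero ((τ l⁻¹ : A ≃+* A) : A →+* A)
      rw [dv_apply h ha, dv_apply h h1, hdeg]
  refine semi_mem (F := F) (ψ := algebraMap A F) (IsFractionRing.injective A F) (v := v)
    (m := m) (fun a ha h0 => ?_) (σ := fr τ) (fun l x => ?_) (fr_map τ) hst Γ hC hE hS hQ hΛ f hf
  · rw [hv, dv_apply h h0, ← exp_zero, exp_lt]
    exact_mod_cast hm a ha h0
  · obtain ⟨a, b, hb, rfl⟩ := IsFractionRing.div_surjective (A := A) x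
    have h1 : fr τ l (algebraMap A F a / algebraMap A F b) =
        fr τ l (algebraMap A F a) / fr τ l (algebraMap A F b) :=
      map_div₀ ((fr τ l : F ≃+* F)) _ _
    rw [h1, ← fr_map, ← fr_map, map_div₀, map_div₀, hv, hv, hv, hv, hd, hd]

end

section poly

variable {S D Λ : Type} [CommRing D] [Group Λ]

/-- `Λ` acts on the polynomial ring, through `δ` on the coefficients, and maps the variables to
linear forms -/
structure LinAct (τ : Λ →* RingAut (MvPolynomial S D)) (δ : Λ →* RingAut D) : Prop where
  const : ∀ (l : Λ) (d : D), τ l (MvPolynomial.C d) = MvPolynomial.C (δ l d)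
  lin : ∀ (l : Λ) (s : S), (τ l (MvPolynomial.X s)).IsHomogeneous 1

variable {τ : Λ →* RingAut (MvPolynomial S D)} {δ : Λ →* RingAut D}

theorem ev_eq (h : LinAct τ δ) (l : Λ) (p : MvPolynomial S D) :
    MvPolynomial.eval (0 : S → D) (τ l p) = δ l (MvPolynomial.eval (0 : S → D) p) := by
  have h1 : (MvPolynomial.eval (0 : S → D)).comp ((τ l : MvPolynomial S D ≃+* MvPolynomial S D) :
      MvPolynomial S D →+* MvPolynomial S D) =
      ((δ l : D ≃+* D) : D →+* D).comp (MvPolynomial.eval (0 : S → D)) := by
    apply MvPolynomial.ringHom_ext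
    · intro d
      change MvPolynomial.eval (0 : S → D) (τ l (MvPolynomial.C d)) =
        δ l (MvPolynomial.eval (0 : S → D) (MvPolynomial.C d))
      rw [h.const, MvPolynomial.eval_C, MvPolynomial.eval_C]
    · intro s
      change MvPolynomial.eval (0 : S → D) (τ l (MvPolynomial.X s)) =
        δ l (MvPolynomial.eval (0 : S → D) (MvPolynomial.X s))
      rw [MvPolynomial.eval_X]
      change MvPolynomial.aeval (0 : S → D) (τ l (MvPolynomial.X s)) =
        ((δ l : D ≃+* D) : D →+* D) 0
      rw [MvPolynomial.aeval_zero, map_zero]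
      have h2 : MvPolynomial.constantCoeff (τ l (MvPolynomial.X s)) = 0 := by
        rw [MvPolynomial.constantCoeff_eq]
        by_contra h3
        have h4 := h.lin l s h3
        simp at h4
      rw [h2, map_zero]
  exact DFunLike.congr_fun h1 p

theorem deg_le (h : LinAct τ δ) (l : Λ) (p : MvPolynomial S D) :
    (τ l p).totalDegree ≤ p.totalDegree := by
  have h1 : ((τ l : MvPolynomial S D ≃+* MvPolynomial S D) :
      MvPolynomial S D →+* MvPolynomial S D) =
      MvPolynomial.eval₂Hom ((MvPolynomial.C : D →+* MvPolynomial S D).comp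
        ((δ l : D ≃+* D) : D →+* D)) (fun s => τ l (MvPolynomial.X s)) := by
    apply MvPolynomial.ringHom_ext
    · intro d
      rw [MvPolynomial.eval₂Hom_C]
      exact h.const l d
    · intro s
      rw [MvPolynomial.eval₂Hom_X']
      rfl
  have h2 : ∀ q, τ l q = MvPolynomial.eval₂ ((MvPolynomial.C : D →+* MvPolynomial S D).comp
        ((δ l : D ≃+* D) : D →+* D)) (fun s => τ l (MvPolynomial.X s)) q :=
    fun q => DFunLike.congr_fun h1 q
  have h3 : τ l p = ∑ i ∈ Finset.range (p.totalDegree + 1),
      τ l (MvPolynomial.homogeneousComponent i p) := by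
    have h4 := map_sum ((τ l : MvPolynomial S D ≃+* MvPolynomial S D) :
      MvPolynomial S D →+* MvPolynomial S D) (fun i => MvPolynomial.homogeneousComponent i p)
      (Finset.range (p.totalDegree + 1))
    rw [MvPolynomial.sum_homogeneousComponent] at h4
    exact h4
  rw [h3]
  refine MvPolynomial.totalDegree_finsetSum_le (fun i hi => ?_)
  rw [h2]
  have h4 := ((MvPolynomial.homogeneousComponent_isHomogeneous i p).eval₂
    ((MvPolynomial.C : D →+* MvPolynomial S D).comp ((δ l : D ≃+* D) : D →+* D))
    (fun s => τ l (MvPolynomial.X s)) (fun r => MvPolynomial.isHomogeneous_C _ _)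
    (h.lin l)).totalDegree_le
  rw [one_mul] at h4
  exact h4.trans (Finset.mem_range_succ_iff.1 hi)

theorem deg_eq (h : LinAct τ δ) (l : Λ) (p : MvPolynomial S D) :
    (τ l p).totalDegree = p.totalDegree := by
  refine le_antisymm (deg_le h l p) ?_
  have h2 := deg_le h l⁻¹ (τ l p)
  rwa [ri] at h2

/-- the specialisation at the origin -/
noncomputable def rd (h : LinAct τ δ) : SG τ →* SG δ where
  toFun γ := ⟨mp (MvPolynomial.eval (0 : S → D)) γ.left, γ.right⟩
  map_one' := by
    apply SemidirectProduct.ext
    · exact map_one _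
    · rfl
  map_mul' a b := by
    apply SemidirectProduct.ext
    · change mp _ (a.left * ph τ a.right b.left) = mp _ a.left * ph δ a.right (mp _ b.left)
      rw [map_mul]
      congr 1
      apply Units.ext
      ext i j
      rw [mp_apply, ph_apply, ph_apply, mp_apply]
      exact ev_eq h _ _
    · rfl

theorem poly_semi [IsDomain D] {C : ∀ (G : Type) [Group G], Prop} (hC : Closed C)
    (hE : ExtClosed C) (hS : ∀ (G : Type) [Group G], Group.IsSolvable G → C G)
    (h : LinAct τ δ) (hΛ : C Λ) (Γ : Subgroup (SG τ)) (hQ : C (Γ.map (rd h))) : C Γ := by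
  refine deg_semi τ hC hE hS (degFun_mv S D) (fun l a => deg_eq h l a)
    (RingHom.ker (MvPolynomial.eval (0 : S → D)))
    (fun a ha h0 => mv_pos S D 0 a ha h0) (fun l a ha => ?_) hΛ Γ ((rd h).subgroupMap Γ) hQ
    (fun γ hγ => ?_)
  · rw [RingHom.mem_ker] at ha ⊢
    rw [ev_eq h l a, ha]
    exact map_zero ((δ l : D ≃+* D) : D →+* D)
  · have h0 : rd h γ.1 = 1 := congrArg Subtype.val hγ
    have h1 : mp (MvPolynomial.eval (0 : S → D)) γ.1.left = 1 :=
      congrArg SemidirectProduct.left h0
    have h2 : γ.1.right = 1 := congrArg SemidirectProduct.right h0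
    refine ⟨h2, ?_⟩
    have h3 : ∀ i j, MvPolynomial.eval (0 : S → D) (γ.1.left.1 i j) =
        (1 : Matrix (Fin 2) (Fin 2) D) i j := by
      intro i j
      have h4 := congrArg (fun z : M2 D => z.1 i j) h1
      exact h4
    refine ⟨?_, ?_, ?_, ?_⟩
    · rw [RingHom.mem_ker, map_sub, h3, map_one]
      simp
    · rw [RingHom.mem_ker, h3]
      simp
    · rw [RingHom.mem_ker, h3]
      simp
    · rw [RingHom.mem_ker, map_sub, h3, map_one]
      simp

/-- the matrices with constant entries -/
noncomputable def cn (h : LinAct τ δ) : SG δ →* SG τ where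
  toFun γ := ⟨mp (MvPolynomial.C : D →+* MvPolynomial S D) γ.left, γ.right⟩
  map_one' := by
    apply SemidirectProduct.ext
    · exact map_one _
    · rfl
  map_mul' a b := by
    apply SemidirectProduct.ext
    · change mp _ (a.left * ph δ a.right b.left) = mp _ a.left * ph τ a.right (mp _ b.left)
      rw [map_mul]
      congr 1
      apply Units.ext
      refine Matrix.ext fun i j => ?_
      rw [mp_apply, ph_apply, ph_apply, mp_apply]
      exact (h.const _ _).symm
    · rfl

theorem cn_inj (h : LinAct τ δ) : Function.Injective (cn h) := by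
  intro a b hab
  have h1 : mp (MvPolynomial.C : D →+* MvPolynomial S D) a.left =
    mp (MvPolynomial.C : D →+* MvPolynomial S D) b.left := congrArg SemidirectProduct.left hab
  have h2 : (cn h a).right = (cn h b).right := by rw [hab]
  refine SemidirectProduct.ext ?_ h2
  apply Units.ext
  refine Matrix.ext fun i j => ?_
  have h3 := congrArg (fun z : M2 (MvPolynomial S D) => z.1 i j) h1
  exact MvPolynomial.C_injective S D h3

theorem poly_iff [IsDomain D] {C : ∀ (G : Type) [Group G], Prop} (hC : Closed C)
    (hE : ExtClosed C) (hS : ∀ (G : Type) [Group G], Group.IsSolvable G → C G)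
    (h : LinAct τ δ) : C (SG τ) ↔ C (SG δ) := by
  constructor
  · intro h1
    exact hC.of_injective _ _ (cn h) (cn_inj h) h1
  · intro h1
    have h2 : C Λ := hC.of_injective _ _ SemidirectProduct.inr SemidirectProduct.inr_injective h1
    have h3 : C (⊤ : Subgroup (SG τ)) :=
      poly_semi hC hE hS h h2 ⊤ (of_sub hC _ h1)
    let e : SG τ ≃* (⊤ : Subgroup (SG τ)) := Subgroup.topEquiv.symm
    exact hC.of_injective _ _ e.toMonoidHom e.injective h3

end poly

end Pool.Agent.Q143.SL
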