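import Pool.Agent.Q143.SL.Act

/-!
# The theorem on semilinear groups
-/

set_option autoImplicit false
set_option linter.unusedSectionVars false
set_option linter.unusedVariables false
set_option linter.style.haveILetI false

namespace Pool.Agent.Q143.SL

open Pool.Agent.Q143.JN Pool.Agent.Q143.BT WithZero Pool.Agent.Y462.SS Pool.Agent.Q152.WP
  Pool.Agent.Q143.TR Pool.Agent.Q143.UG

variable {A F : Type} [CommRing A] [Field F] {ψ : A →+* F} (hψ : Function.Injective ψ)
  {v : Valuation F Z0} {m : Ideal A} (hm : ∀ a ∈ m, a ≠ 0 → 1 < v (ψ a)) {Λ : Type}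
  [Group Λ] {τ : Λ →* RingAut A} {σ : Λ →* RingAut F} (hv : ∀ l x, v (σ l x) = v x)
  (hτσ : ∀ l a, ψ (τ l a) = σ l (ψ a)) (hst : ∀ l, ∀ a ∈ m, τ l a ∈ m)

/-- the matrices in the semilinear group -/
noncomputable abbrev il (κ : M2 A) : SG τ := SemidirectProduct.inl κ

theorem conj_il (γ : SG τ) (κ : M2 A) :
    γ * il κ * γ⁻¹ = il (γ.left * ph τ γ.right κ * γ.left⁻¹) := by
  apply SemidirectProduct.ext
  · rw [SemidirectProduct.mul_left, SemidirectProduct.mul_left, SemidirectProduct.mul_right,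
      SemidirectProduct.inv_left, SemidirectProduct.left_inl, SemidirectProduct.right_inl,
      SemidirectProduct.left_inl, mul_one]
    congr 1
    rw [← MulAut.mul_apply, ← map_mul, mul_inv_cancel, map_one]
    rfl
  · rw [SemidirectProduct.mul_right, SemidirectProduct.mul_right, SemidirectProduct.inv_right,
      SemidirectProduct.right_inl, SemidirectProduct.right_inl, mul_one, mul_inv_cancel]

include hst in
theorem cg_ph {κ : M2 A} (h : Cg m κ) (l : Λ) : Cg m (ph τ l κ) := by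
  obtain ⟨h1, h2, h3, h4⟩ := h
  have h5 : ∀ a : A, τ l (a - 1) = τ l a - 1 := by
    intro a
    have h6 := map_sub ((τ l : A ≃+* A) : A →+* A) a 1
    rw [map_one] at h6
    exact h6
  refine ⟨?_, hst l _ h2, hst l _ h3, ?_⟩
  · rw [ph_apply, ← h5]
    exact hst l _ h1
  · rw [ph_apply, ← h5]
    exact hst l _ h4

include hst in
theorem cg_conjS {κ : M2 A} (h : Cg m κ) (γ : SG τ) :
    Cg m (γ.left * ph τ γ.right κ * γ.left⁻¹) := cg_conj (cg_ph hst h γ.right) γ.left

theorem conj_ne {κ : M2 A} (h : κ ≠ 1) (γ : SG τ) :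
    γ.left * ph τ γ.right κ * γ.left⁻¹ ≠ 1 := by
  intro h1
  apply h
  have h2 : γ * il κ * γ⁻¹ = 1 := by
    rw [conj_il, h1]
    exact map_one SemidirectProduct.inl
  have h3 : il κ = (1 : SG τ) := by
    have h4 : (il κ : SG τ) = γ⁻¹ * (γ * il κ * γ⁻¹) * γ := by group
    rw [h4, h2]
    group
  exact SemidirectProduct.inl_injective (h3.trans (map_one SemidirectProduct.inl).symm)

variable (Γ : Subgroup (SG τ))

/-- the edges fixed by nontrivial elements of the kernel -/
def SSs (ψ : A →+* F) (v : Valuation F Z0) (m : Ideal A) (Γ : Subgroup (SG τ)) :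
    SimpleGraph (VV v) where
  Adj x y := (TT v).Adj x y ∧ ∃ κ : M2 A, il κ ∈ Γ ∧ κ ≠ 1 ∧ Cg m κ ∧ mp ψ κ • x = x ∧
    mp ψ κ • y = y
  symm := ⟨fun x y h => by
    obtain ⟨h1, κ, h2, h3, h4, h5, h6⟩ := h
    exact ⟨h1.symm, κ, h2, h3, h4, h6, h5⟩⟩
  loopless := ⟨fun x h => h.1.ne rfl⟩

include hv hτσ in
theorem conj_fix {κ : M2 A} {x : VV v} (h : mp ψ κ • x = x) (γ : SG τ) :
    mp ψ (γ.left * ph τ γ.right κ * γ.left⁻¹) • (mp ψ γ.left • lamA σ hv γ.right x) =
      mp ψ γ.left • lamA σ hv γ.right x := by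
  rw [map_mul, map_mul, map_inv, mul_smul, mul_smul, inv_smul_smul, mp_ph τ σ hτσ, ← lam_smul, h]

include hτσ hst in
theorem SSs_adj (γ : SG τ) (hγ : γ ∈ Γ) (x y : VV v) (h : (SSs ψ v m Γ).Adj x y) :
    (SSs ψ v m Γ).Adj (mp ψ γ.left • lamA σ hv γ.right x)
      (mp ψ γ.left • lamA σ hv γ.right y) := by
  obtain ⟨h1, κ, h2, h3, h4, h5, h6⟩ := h
  refine ⟨TT_adj _ _ _ (lam_adj σ hv _ _ _ h1), γ.left * ph τ γ.right κ * γ.left⁻¹, ?_,
    conj_ne h3 γ, cg_conjS hst h4 γ, conj_fix hv hτσ h5 γ, conj_fix hv hτσ h6 γ⟩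
  rw [← conj_il]
  exact mul_mem (mul_mem hγ h2) (inv_mem hγ)

include hψ hm hv hτσ hst in
/-- **Main theorem.** -/
theorem semi_mem {C : ∀ (G : Type) [Group G], Prop} (hC : Closed C) (hE : ExtClosed C)
    (hS : ∀ (G : Type) [Group G], Group.IsSolvable G → C G) {Q : Type} [Group Q]
    (hQ : C Q) (hΛ : C Λ) (f : Γ →* Q)
    (hf : ∀ γ : Γ, f γ = 1 → γ.1.right = 1 ∧ Cg m γ.1.left) : C Γ := by
  letI : MulAction (SG τ) (VV v) := actS τ σ hv hτσ
  have hsm : ∀ (γ : Γ) (x : VV v), γ • x = mp ψ γ.1.left • lamA σ hv γ.1.right x :=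
    fun _ _ => rfl
  have hadjS : ∀ (γ : Γ) (x y : VV v), (SSs ψ v m Γ).Adj x y →
      (SSs ψ v m Γ).Adj (γ • x) (γ • y) := fun γ x y h => SSs_adj hv hτσ hst Γ γ.1 γ.2 x y h
  have hker : ∀ γ : Γ, f γ = 1 → γ.1 = il γ.1.left := by
    intro γ h
    apply SemidirectProduct.ext
    · rfl
    · exact (hf γ h).1
  have hkfix : ∀ (γ : Γ) (x : VV v), f γ = 1 → γ • x = x → mp ψ γ.1.left • x = x := by
    intro γ x h h1
    have h2 := hsm γ x
    rw [h1, (hf γ h).1, lam_one] at h2
    exact h2.symm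
  refine rel_mem (T := TT v) (S := SSs ψ v m Γ)
    (fun γ x y h => TT_adj _ _ _ (lam_adj σ hv _ _ _ h)) hadjS
    (TT_tree v) (fun x y h => h.1) hC hE hQ f
    (fun x => ?_) (fun γ x y hxy hS' hx hy hf1 => ?_)
  · by_cases hex : ∃ κ : M2 A, (il κ : SG τ) ∈ Γ ∧ κ ≠ 1 ∧ Cg m κ ∧ mp ψ κ • x = x
    · obtain ⟨κ, h1, h2, h3, h4⟩ := hex
      -- the line is constant on the component
      have key : ∀ {y z : VV v} (_ : (SSs ψ v m Γ).Walk y z),
          (∀ κ' : M2 A, (il κ' : SG τ) ∈ Γ → κ' ≠ 1 → Cg m κ' → mp ψ κ' • y = y →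
            Ln ψ κ' = Ln ψ κ) →
          (∀ κ' : M2 A, (il κ' : SG τ) ∈ Γ → κ' ≠ 1 → Cg m κ' → mp ψ κ' • z = z →
            Ln ψ κ' = Ln ψ κ) := by
        intro y z p
        induction p with
        | nil => exact id
        | @cons y y' z h p ih =>
          intro hy
          apply ih
          obtain ⟨-, κ0, k1, k2, k3, k4, k5⟩ := h
          intro κ' j1 j2 j3 j4
          rw [← hy κ0 k1 k2 k3 k4]
          exact Ln_eq hψ hm j3 k3 j4 k5 j2 k2
      have hx : ∀ κ' : M2 A, (il κ' : SG τ) ∈ Γ → κ' ≠ 1 → Cg m κ' → mp ψ κ' • x = x →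
          Ln ψ κ' = Ln ψ κ :=
        fun κ' j1 j2 j3 j4 => Ln_eq hψ hm j3 h3 j4 h4 j2 h2
      obtain ⟨a1, a2⟩ := nil_of hm h3 (cg_inv h3) h4
      obtain ⟨⟨w, hw, hw0⟩, hline⟩ := Ln_line hψ a1 a2 h2
      let q : cs hadjS x →* Λ :=
        (SemidirectProduct.rightHom.comp Γ.subtype).comp (cs hadjS x).subtype
      refine sol_ext hC hE hS q ?_ hΛ
      let j : q.ker →* M2 A :=
        { toFun := fun γ => γ.1.1.1.left
          map_one' := rfl
          map_mul' := fun a b => by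
            have h5 : a.1.1.1.right = 1 := a.2
            change a.1.1.1.left * ph τ a.1.1.1.right b.1.1.1.left = _
            rw [h5, map_one]
            rfl }
      refine line_sol ((mp ψ).comp j) ?_ w hw0 (fun γ => ?_)
      · intro a b hab
        have h5 : a.1.1.1.left = b.1.1.1.left := mp_inj hψ hab
        have h6 : a.1.1.1.right = b.1.1.1.right := a.2.trans b.2.symm
        exact Subtype.ext (Subtype.ext (Subtype.ext (SemidirectProduct.ext h5 h6)))
      · have hγ : (SSs ψ v m Γ).Reachable x (γ.1.1 • x) := γ.1.2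
        obtain ⟨p⟩ := hγ
        have hr : γ.1.1.1.right = 1 := γ.2
        have h8 : ph τ γ.1.1.1.right κ = κ := by
          rw [hr, map_one]
          rfl
        have h5 := key p hx (γ.1.1.1.left * ph τ γ.1.1.1.right κ * γ.1.1.1.left⁻¹) (by
            rw [← conj_il]
            exact mul_mem (mul_mem γ.1.1.2 h1) (inv_mem γ.1.1.2))
          (conj_ne h2 γ.1.1.1) (cg_conjS hst h3 _)
          (by
            rw [hsm]
            exact conj_fix hv hτσ h4 _)
        rw [h8] at h5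
        have h6 := (Ln_conj κ γ.1.1.1.left w).1 hw
        rw [h5] at h6
        exact hline w hw _ h6
    · -- the component is a single vertex, and the kernel acts freely on it
      have h1 : ∀ γ ∈ cs hadjS x, γ • x = x := by
        intro γ hγ
        obtain ⟨p⟩ : (SSs ψ v m Γ).Reachable x (γ • x) := hγ
        generalize hz : γ • x = z at p
        cases p with
        | nil => rfl
        | cons h p =>
          exfalso
          obtain ⟨-, κ0, k1, k2, k3, k4, k5⟩ := h
          exact hex ⟨κ0, k1, k2, k3, k4⟩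
      refine hC.of_injective _ _ (f.comp (cs hadjS x).subtype) ?_ hQ
      refine (injective_iff_map_eq_one _).2 (fun γ hγ => ?_)
      by_contra hne
      have h2 : f γ.1 = 1 := hγ
      refine hex ⟨γ.1.1.left, ?_, fun h3 => hne (Subtype.ext (Subtype.ext ?_)), (hf _ h2).2,
        hkfix γ.1 x h2 (h1 γ.1 γ.2)⟩
      · rw [← hker γ.1 h2]
        exact γ.1.2
      · change γ.1.1 = 1
        rw [hker γ.1 h2, h3]
        exact map_one SemidirectProduct.inl
  · by_contra hne
    refine hS' ⟨hxy, γ.1.left, ?_, fun h3 => hne (Subtype.ext ?_), (hf _ hf1).2,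
      hkfix γ x hf1 hx, hkfix γ y hf1 hy⟩
    · rw [← hker γ hf1]
      exact γ.2
    · change γ.1 = 1
      rw [hker γ hf1, h3]
      exact map_one SemidirectProduct.inl

end Pool.Agent.Q143.SL
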