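import Pool.Agent.Q143.SL.Deg

/-!
# Definitions for the statement
-/

set_option autoImplicit false
set_option linter.style.haveILetI false

namespace Pool.Agent.Q143.SL

open Pool.Agent.Q143.JN Pool.Agent.Q143.BT Pool.Agent.Y462.SS Pool.Agent.Q152.WP

variable {A Λ : Type} [CommRing A] [Group Λ]

/-- the semidirect product `GL_2(A) ⋊ Λ`, where `Λ` acts on the entries of the matrices by `τ` -/
def SemiGL (τ : Λ →* RingAut A) : Type := SG τ

noncomputable instance (τ : Λ →* RingAut A) : Group (SemiGL τ) := inferInstanceAs (Group (SG τ))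

/-- the matrix of an element -/
def SemiGL.mat {τ : Λ →* RingAut A} (γ : SemiGL τ) : GL (Fin 2) A := SemidirectProduct.left γ

/-- the component in `Λ` of an element -/
def SemiGL.aut {τ : Λ →* RingAut A} (γ : SemiGL τ) : Λ := SemidirectProduct.right γ

/-- `deg` is a degree function on `A`, preserved by the action `τ`, `m` is an invariant ideal all of
whose nonzero elements have positive degree -/
structure DegAct (deg : A → ℕ) (τ : Λ →* RingAut A) (m : Ideal A) : Prop where
  degFun : DegFun deg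
  inv : ∀ (l : Λ) (a : A), deg (τ l a) = deg a
  pos : ∀ a ∈ m, a ≠ 0 → 0 < deg a
  stable : ∀ (l : Λ), ∀ a ∈ m, τ l a ∈ m

/-- the kernel of `f` consists of matrices congruent to `1` modulo `m` -/
def KerCong {τ : Λ →* RingAut A} (m : Ideal A) (Γ : Subgroup (SemiGL τ)) {Q : Type} [Group Q]
    (f : Γ →* Q) : Prop :=
  ∀ γ : Γ, f γ = 1 → γ.1.aut = 1 ∧ Cg m γ.1.mat

theorem semi_deg [IsDomain A] {C : ∀ (G : Type) [Group G], Prop} (hC : Closed C)
    (hE : ExtClosed C) (hS : ∀ (G : Type) [Group G], Group.IsSolvable G → C G) {deg : A → ℕ}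
    {τ : Λ →* RingAut A} {m : Ideal A} (h : DegAct deg τ m) (hΛ : C Λ) (Γ : Subgroup (SemiGL τ))
    {Q : Type} [Group Q] (f : Γ →* Q) (hQ : C Q) (hf : KerCong m Γ f) : C Γ :=
  deg_semi τ hC hE hS h.degFun h.inv m h.pos h.stable hΛ Γ f hQ hf

theorem semi_iff {S D : Type} [CommRing D] [IsDomain D] {C : ∀ (G : Type) [Group G], Prop}
    (hC : Closed C) (hE : ExtClosed C)
    (hS : ∀ (G : Type) [Group G], Group.IsSolvable G → C G)
    {τ : Λ →* RingAut (MvPolynomial S D)} {δ : Λ →* RingAut D} (h : LinAct τ δ) :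
    C (SemiGL τ) ↔ C (SemiGL δ) := poly_iff hC hE hS h

end Pool.Agent.Q143.SL
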